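import Pool.Agent.V11282.LD.Shift

set_option autoImplicit false

/-!
# Direct sums with all `F`-hypercyclic operators do not force hereditary `F`-hypercyclicity

`F` is the family of infinite subsets of `ℕ`, and `T` is the weighted backward shift on `ℓ²` whose
products of weights are `2 ^ dist(n, squares)`.
-/

namespace Pool.Agent.Results.MP_1d57ab_an.DirectSum

open Filter Topology Pool.Agent.V11282.LD

noncomputable section

/-- A Furstenberg family: nonempty subsets of `ℕ`, hereditary upwards. -/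
structure IsFurstenberg (F : Set (Set ℕ)) : Prop where
  nonempty : ∀ A ∈ F, A.Nonempty
  upward : ∀ A ∈ F, ∀ B : Set ℕ, A ⊆ B → B ∈ F

/-- An infinite-dimensional Polish topological vector space. -/
structure Space (𝕜 : Type) [RCLike 𝕜] where
  X : Type
  [grp : AddCommGroup X]
  [mod : Module 𝕜 X]
  [top : TopologicalSpace X]
  [addc : IsTopologicalAddGroup X]
  [smulc : ContinuousSMul 𝕜 X]
  [polish : PolishSpace X]
  infinite : ¬ FiniteDimensional 𝕜 X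

attribute [instance] Space.grp Space.mod Space.top Space.addc Space.smulc Space.polish

/-- The visit set `N_T(x, V)`. -/
def visits {X : Type} (T : X → X) (x : X) (V : Set X) : Set ℕ := {n | T^[n] x ∈ V}

/-- `F`-hypercyclicity. -/
def IsHyp (F : Set (Set ℕ)) {X : Type} [TopologicalSpace X] (T : X → X) : Prop :=
  ∃ x, ∀ V : Set X, IsOpen V → V.Nonempty → visits T x V ∈ F

/-- Hereditary `F`-hypercyclicity. -/
def IsHereditarilyHyp (F : Set (Set ℕ)) {X : Type} [TopologicalSpace X] (T : X → X) : Prop :=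
  ∀ (I : Type) [Countable I] (V : I → Set X) (A : I → Set ℕ),
    (∀ i, IsOpen (V i)) → (∀ i, (V i).Nonempty) → (∀ i, A i ∈ F) →
    ∃ x, ∀ i, visits T x (V i) ∩ A i ∈ F

/-- The family of all infinite subsets of `ℕ`. -/
def infiniteSets : Set (Set ℕ) := {A | A.Infinite}

/-- The direct sum `S ⊕ T`. -/
def dsum {Y X : Type} (S : Y → Y) (T : X → X) : Y × X → Y × X := fun p => (S p.1, T p.2)

/-! ## The distance to the squares -/

/-- the distance to the nearest square -/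
def dsq (n : ℕ) : ℕ := sInf {m : ℕ | ∃ k : ℕ, n ≤ k ^ 2 + m ∧ k ^ 2 ≤ n + m}

theorem dsq_spec (n : ℕ) : ∃ k : ℕ, n ≤ k ^ 2 + dsq n ∧ k ^ 2 ≤ n + dsq n :=
  Nat.sInf_mem (s := {m : ℕ | ∃ k : ℕ, n ≤ k ^ 2 + m ∧ k ^ 2 ≤ n + m}) ⟨n, 0, by simp, by simp⟩

theorem dsq_le {n m k : ℕ} (h1 : n ≤ k ^ 2 + m) (h2 : k ^ 2 ≤ n + m) : dsq n ≤ m :=
  Nat.sInf_le ⟨k, h1, h2⟩

theorem dsq_sq (k : ℕ) : dsq (k ^ 2) = 0 := Nat.le_zero.1 (dsq_le (k := k) (by simp) (by simp))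

theorem dsq_succ_le (n : ℕ) : dsq (n + 1) ≤ dsq n + 1 := by
  obtain ⟨k, h1, h2⟩ := dsq_spec n
  exact dsq_le (k := k) (by omega) (by omega)

theorem dsq_add (n m : ℕ) : dsq n ≤ dsq (n + m) + m := by
  obtain ⟨k, h1, h2⟩ := dsq_spec (n + m)
  exact dsq_le (k := k) (by omega) (by omega)

/-- two far apart numbers which have the same sum with an infinite set cannot both be close to
squares -/
theorem far {a₁ a₂ b c n₀ : ℕ} (h : a₁ + 2 * c < a₂)
    (hb : a₂ + n₀ + (a₂ + 2 * c) ^ 2 + c < b) : c ≤ dsq (b - a₁) ∨ c ≤ dsq (b - a₂) := by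
  by_contra hcon
  push Not at hcon
  obtain ⟨h1, h2⟩ := hcon
  obtain ⟨k₁, p1, q1⟩ := dsq_spec (b - a₁)
  obtain ⟨k₂, p2, q2⟩ := dsq_spec (b - a₂)
  have hk2 : a₂ + 2 * c < k₂ := by
    have : (a₂ + 2 * c) ^ 2 < k₂ ^ 2 := by omega
    exact lt_of_pow_lt_pow_left₀ 2 (by omega) this
  have hk12 : k₂ < k₁ := by
    have : k₂ ^ 2 < k₁ ^ 2 := by omega
    exact lt_of_pow_lt_pow_left₀ 2 (by omega) this
  have h3 : (k₂ + 1) ^ 2 ≤ k₁ ^ 2 := Nat.pow_le_pow_left (by omega) 2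
  have h4 : (k₂ + 1) ^ 2 = k₂ ^ 2 + 2 * k₂ + 1 := by ring
  omega

/-! ## The shift -/

variable {𝕜 : Type} [RCLike 𝕜]

/-- the weights -/
def wt (n : ℕ) : ℝ := 2 ^ dsq n / 2 ^ dsq (n - 1)

theorem wt_bound (n : ℕ) : |wt n| ≤ 2 := by
  have h0 : 0 ≤ wt n := by unfold wt; positivity
  rw [abs_of_nonneg h0]
  unfold wt
  rw [div_le_iff₀ (by positivity), ← pow_succ']
  refine pow_le_pow_right₀ (by norm_num) ?_
  rcases n with - | n
  · simp
  · simpa using dsq_succ_le n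

theorem iter {T : ell 𝕜 →L[𝕜] ell 𝕜} (hT : ∀ x n, (T x) n = (wt (n + 1) : 𝕜) * x (n + 1)) (n : ℕ)
    (x : ell 𝕜) : ∀ m, (T^[n] x) m = ((2 ^ dsq (n + m) / 2 ^ dsq m : ℝ) : 𝕜) * x (n + m) := by
  induction n with
  | zero =>
    intro m
    rw [Function.iterate_zero, id, zero_add, div_self (by positivity)]
    simp
  | succ n ih =>
    intro m
    rw [Function.iterate_succ_apply', hT, ih, ← mul_assoc, ← RCLike.ofReal_mul]
    have e1 : n + (m + 1) = n + 1 + m := by omega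
    have e2 : wt (m + 1) * (2 ^ dsq (n + (m + 1)) / 2 ^ dsq (m + 1)) =
        2 ^ dsq (n + 1 + m) / 2 ^ dsq m := by
      unfold wt
      rw [Nat.add_sub_cancel, e1]
      have : (2 : ℝ) ^ dsq (m + 1) ≠ 0 := by positivity
      field_simp
    rw [e2, e1]

theorem single_sum_apply (J n : ℕ) (c : ℕ → 𝕜) (i : ℕ) :
    (∑ m ∈ Finset.range (J + 1), lp.single (E := fun _ : ℕ => 𝕜) 2 (n + m) (c m)) (n + i) =
      if i ≤ J then c i else 0 := by
  rw [lp.coeFn_sum, Finset.sum_apply]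
  simp only [lp.single_apply]
  by_cases hi : i ≤ J
  · rw [if_pos hi, Finset.sum_eq_single i]
    · rw [Pi.single_eq_same]
    · intro m _ hmn
      rw [Pi.single_eq_of_ne]
      omega
    · intro h
      rw [Finset.mem_range] at h
      omega
  · rw [if_neg hi, Finset.sum_eq_zero]
    intro m hm
    rw [Finset.mem_range] at hm
    rw [Pi.single_eq_of_ne]
    omega

theorem shift_hits {T : ell 𝕜 →L[𝕜] ell 𝕜} (hT : ∀ x n, (T x) n = (wt (n + 1) : 𝕜) * x (n + 1))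
    {U V : Set (ell 𝕜)} (hU : IsOpen U) (hV : IsOpen V) (hUn : U.Nonempty) (hVn : V.Nonempty) :
    ∃ c M, ∀ n, M ≤ n → c ≤ dsq n → ∃ x ∈ U, T^[n] x ∈ V := by
  obtain ⟨u, hu⟩ := hUn
  obtain ⟨v, hv⟩ := hVn
  obtain ⟨J₁, hJ₁⟩ := exists_trunc hU hu
  obtain ⟨J₂, hJ₂⟩ := exists_trunc hV hv
  set u' := ∑ m ∈ Finset.range (J₁ + 1), lp.single (E := fun _ : ℕ => 𝕜) 2 m (u m) with hu'
  obtain ⟨ε, hε, hball⟩ := Metric.isOpen_iff.1 hU u' hJ₁
  set K : ℝ := ∑ m ∈ Finset.range (J₂ + 1), ‖v m‖ * 2 ^ dsq m * 2 ^ m with hK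
  obtain ⟨c, hc⟩ := pow_unbounded_of_one_lt (K / ε) (by norm_num : (1 : ℝ) < 2)
  refine ⟨c, J₁ + 1, fun n hn hcn => ?_⟩
  set z := ∑ m ∈ Finset.range (J₂ + 1), lp.single (E := fun _ : ℕ => 𝕜) 2 (n + m)
    (((2 ^ dsq m / 2 ^ dsq (n + m) : ℝ) : 𝕜) * v m) with hz
  have hznorm : ‖z‖ ≤ K / 2 ^ dsq n := by
    rw [hz, hK, Finset.sum_div]
    refine norm_sum_le_of_le _ fun m _ => ?_
    rw [lp.norm_single (by norm_num), norm_mul, RCLike.norm_ofReal, abs_of_nonneg (by positivity)]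
    rw [le_div_iff₀ (by positivity)]
    have h1 : (2 : ℝ) ^ dsq n ≤ 2 ^ dsq (n + m) * 2 ^ m := by
      rw [← pow_add]
      exact pow_le_pow_right₀ (by norm_num) (dsq_add n m)
    calc 2 ^ dsq m / 2 ^ dsq (n + m) * ‖v m‖ * 2 ^ dsq n
        ≤ 2 ^ dsq m / 2 ^ dsq (n + m) * ‖v m‖ * (2 ^ dsq (n + m) * 2 ^ m) := by gcongr
      _ = ‖v m‖ * 2 ^ dsq m * 2 ^ m := by field_simp
  have hzlt : ‖z‖ < ε := by
    refine hznorm.trans_lt ?_
    rw [div_lt_iff₀ (by positivity)]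
    rw [div_lt_iff₀ hε] at hc
    have h1 : (2 : ℝ) ^ c ≤ 2 ^ dsq n := pow_le_pow_right₀ (by norm_num) hcn
    nlinarith
  refine ⟨u' + z, hball ?_, ?_⟩
  · rw [Metric.mem_ball, dist_eq_norm, add_sub_cancel_left]
    exact hzlt
  · have h1 : T^[n] (u' + z) = ∑ m ∈ Finset.range (J₂ + 1),
        lp.single (E := fun _ : ℕ => 𝕜) 2 m (v m) := by
      ext m
      rw [iter hT]
      have e1 : (u' + z) (n + m) = u' (n + m) + z (n + m) := rfl
      have e2 : u' (n + m) = 0 := by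
        have := single_sum_apply J₁ 0 (fun m => u m) (n + m)
        simp only [zero_add] at this
        rw [hu', this, if_neg (by omega)]
      have e3 : z (n + m) = if m ≤ J₂ then ((2 ^ dsq m / 2 ^ dsq (n + m) : ℝ) : 𝕜) * v m else 0 :=
        single_sum_apply J₂ n (fun m => ((2 ^ dsq m / 2 ^ dsq (n + m) : ℝ) : 𝕜) * v m) m
      have e4 : (∑ m ∈ Finset.range (J₂ + 1),
        lp.single (E := fun _ : ℕ => 𝕜) 2 m (v m)) m = if m ≤ J₂ then v m else 0 := by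
        have := single_sum_apply J₂ 0 (fun m => v m) m
        simpa only [zero_add] using this
      rw [e1, e2, e3, e4, zero_add]
      split_ifs with h
      · rw [← mul_assoc, ← RCLike.ofReal_mul]
        have : (2 ^ dsq (n + m) / 2 ^ dsq m * (2 ^ dsq m / 2 ^ dsq (n + m)) : ℝ) = 1 := by
          field_simp
        rw [this, RCLike.ofReal_one, one_mul]
      · rw [mul_zero]
    rw [h1]
    exact hJ₂

/-! ## A Baire category argument -/

theorem baire {Z : Type} [TopologicalSpace Z] [PolishSpace Z] [Nonempty Z] {R : Z → Z}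
    (hR : Continuous R) (h : ∀ U V : Set Z, IsOpen U → IsOpen V → U.Nonempty → V.Nonempty →
      ∀ n₀, ∃ n, n₀ ≤ n ∧ ∃ z ∈ U, R^[n] z ∈ V) : IsHyp infiniteSets R := by
  let b := TopologicalSpace.countableBasis Z
  have hbc : Countable b := TopologicalSpace.countable_countableBasis Z
  have hbb := TopologicalSpace.isBasis_countableBasis Z
  have hbo : ∀ s : b, IsOpen (s : Set Z) := fun s => hbb.isOpen s.2
  have hbn : ∀ s : b, (s : Set Z).Nonempty := fun s =>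
    TopologicalSpace.nonempty_of_mem_countableBasis s.2
  let G : b × ℕ → Set Z := fun q => ⋃ n : {n : ℕ // q.2 ≤ n}, R^[n.1] ⁻¹' (q.1 : Set Z)
  have hGo : ∀ q, IsOpen (G q) := fun q =>
    isOpen_iUnion fun n => (hbo q.1).preimage (hR.iterate n.1)
  have hGd : ∀ q, Dense (G q) := by
    intro q
    rw [dense_iff_inter_open]
    intro U hU hUn
    obtain ⟨n, hn, z, hz, hz2⟩ := h U q.1 hU (hbo q.1) hUn (hbn q.1) q.2
    exact ⟨z, hz, Set.mem_iUnion.2 ⟨⟨n, hn⟩, hz2⟩⟩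
  have hD := dense_iInter_of_isOpen hGo hGd
  obtain ⟨z, hz⟩ := hD.nonempty
  refine ⟨z, fun V hV hVn => ?_⟩
  obtain ⟨v, hv⟩ := hVn
  obtain ⟨s, hs, hvs, hsV⟩ := hbb.exists_subset_of_mem_open hv hV
  show (visits R z V).Infinite
  refine Set.infinite_of_forall_exists_gt fun n₀ => ?_
  have h1 := Set.mem_iInter.1 hz (⟨s, hs⟩, n₀ + 1)
  obtain ⟨n, hn⟩ := Set.mem_iUnion.1 h1
  exact ⟨n.1, hsV hn, Nat.lt_of_succ_le n.2⟩

/-! ## The operator hits with every hypercyclic operator -/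

theorem hits_far {Y : Type} [TopologicalSpace Y] {S : Y → Y} (hS : IsHyp infiniteSets S)
    {U V : Set Y} (hU : IsOpen U) (hV : IsOpen V) (hUn : U.Nonempty) (hVn : V.Nonempty)
    (c n₀ : ℕ) : ∃ n, n₀ ≤ n ∧ c ≤ dsq n ∧ ∃ y ∈ U, S^[n] y ∈ V := by
  obtain ⟨y, hy⟩ := hS
  have hA : (visits S y U).Infinite := hy U hU hUn
  have hB : (visits S y V).Infinite := hy V hV hVn
  obtain ⟨a₁, ha₁⟩ := hA.nonempty
  obtain ⟨a₂, ha₂, h12⟩ := hA.exists_gt (a₁ + 2 * c)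
  obtain ⟨b, hb, hb2⟩ := hB.exists_gt (a₂ + n₀ + (a₂ + 2 * c) ^ 2 + c)
  have key : ∀ a, a ∈ visits S y U → a ≤ a₂ → c ≤ dsq (b - a) →
      ∃ n, n₀ ≤ n ∧ c ≤ dsq n ∧ ∃ y ∈ U, S^[n] y ∈ V := by
    intro a ha haa hc
    refine ⟨b - a, by omega, hc, S^[a] y, ha, ?_⟩
    rw [← Function.iterate_add_apply, Nat.sub_add_cancel (by omega)]
    exact hb
  rcases far h12 hb2 with h | h
  · exact key a₁ ha₁ (by omega) h
  · exact key a₂ ha₂ le_rfl h

theorem dsum_iter {Y X : Type} (S : Y → Y) (T : X → X) (n : ℕ) (p : Y × X) :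
    (dsum S T)^[n] p = (S^[n] p.1, T^[n] p.2) := by
  induction n with
  | zero => rfl
  | succ n ih => rw [Function.iterate_succ_apply', ih, Function.iterate_succ_apply',
      Function.iterate_succ_apply']; rfl

theorem dsum_hyp {Y X : Type} [TopologicalSpace Y] [TopologicalSpace X] [PolishSpace Y]
    [PolishSpace X] [Nonempty Y] [Nonempty X] {S : Y → Y} {T : X → X} (hSc : Continuous S)
    (hTc : Continuous T) (hS : IsHyp infiniteSets S)
    (hT : ∀ U V : Set X, IsOpen U → IsOpen V → U.Nonempty → V.Nonempty →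
      ∃ c M, ∀ n, M ≤ n → c ≤ dsq n → ∃ x ∈ U, T^[n] x ∈ V) : IsHyp infiniteSets (dsum S T) := by
  refine baire ((hSc.comp continuous_fst).prodMk (hTc.comp continuous_snd)) ?_
  rintro U V hU hV ⟨u, hu⟩ ⟨v, hv⟩ n₀
  obtain ⟨U₁, U₂, hU₁, hU₂, hu₁, hu₂, hUU⟩ := isOpen_prod_iff.1 hU u.1 u.2 hu
  obtain ⟨V₁, V₂, hV₁, hV₂, hv₁, hv₂, hVV⟩ := isOpen_prod_iff.1 hV v.1 v.2 hv
  obtain ⟨c, M, hcM⟩ := hT U₂ V₂ hU₂ hV₂ ⟨_, hu₂⟩ ⟨_, hv₂⟩
  obtain ⟨n, hn, hcn, y, hy, hy2⟩ := hits_far hS hU₁ hV₁ ⟨_, hu₁⟩ ⟨_, hv₁⟩ c (max n₀ M)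
  obtain ⟨x, hx, hx2⟩ := hcM n ((le_max_right _ _).trans hn) hcn
  refine ⟨n, (le_max_left _ _).trans hn, (y, x), hUU ⟨hy, hx⟩, ?_⟩
  rw [dsum_iter]
  exact hVV ⟨hy2, hx2⟩

theorem not_hereditary {T : ell 𝕜 →L[𝕜] ell 𝕜}
    (hT : ∀ x n, (T x) n = (wt (n + 1) : 𝕜) * x (n + 1)) :
    ¬ IsHereditarilyHyp infiniteSets (fun x => T x) := by
  intro h
  have hcont : Continuous fun x : ell 𝕜 => x 0 :=
    (continuous_apply 0).comp (lp.uniformContinuous_coe (E := fun _ : ℕ => 𝕜) (p := 2)).continuous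
  have hD : (Set.range fun k : ℕ => k ^ 2).Infinite :=
    Set.infinite_range_of_injective (fun a b hab => by
      simpa using hab)
  obtain ⟨x, hx⟩ := h Unit (fun _ => {x | 1 < ‖x 0‖}) (fun _ => Set.range fun k : ℕ => k ^ 2)
    (fun _ => isOpen_lt continuous_const hcont.norm)
    (fun _ => ⟨lp.single (E := fun _ : ℕ => 𝕜) 2 0 (2 : 𝕜), by
      simp [lp.single_apply]⟩) (fun _ => hD)
  have hinf := hx ()
  have hlim : Tendsto (fun n => ‖x n‖ ^ 2) atTop (𝓝 0) := (ell_summable x).tendsto_atTop_zero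
  obtain ⟨N, hN⟩ := Filter.eventually_atTop.1 (hlim.eventually (gt_mem_nhds zero_lt_one))
  obtain ⟨n, ⟨hn1, k, rfl⟩, hn2⟩ := hinf.exists_gt N
  have h1 : 1 < ‖(T^[k ^ 2] x) 0‖ := hn1
  rw [iter hT, add_zero, dsq_sq] at h1
  have h0 : dsq 0 = 0 := by simpa using dsq_sq 0
  rw [h0] at h1
  have h2 := hN (k ^ 2) hn2.le
  simp only [pow_zero, div_one, RCLike.ofReal_one, one_mul] at h1
  nlinarith

/-! ## The space -/

theorem linInd : LinearIndependent 𝕜 (fun n : ℕ => lp.single (E := fun _ : ℕ => 𝕜) 2 n (1 : 𝕜)) := by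
  rw [linearIndependent_iff']
  intro s g hg i hi
  have h := congrArg (fun x : ell 𝕜 => x i) hg
  simp only [lp.coeFn_sum, Finset.sum_apply, lp.coeFn_smul, Pi.smul_apply, lp.single_apply] at h
  rw [Finset.sum_eq_single i] at h
  · simpa using h
  · intro j _ hji
    rw [Pi.single_eq_of_ne hji.symm, smul_zero]
  · intro h
    exact absurd hi h

theorem not_fd : ¬ FiniteDimensional 𝕜 (ell 𝕜) := by
  intro h
  have := (linInd (𝕜 := 𝕜)).finite
  exact not_finite ℕ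

theorem separable : TopologicalSpace.SeparableSpace (ell 𝕜) := by
  rw [← TopologicalSpace.isSeparable_univ_iff]
  have h1 : TopologicalSpace.IsSeparable
      (Set.range (fun n : ℕ => lp.single (E := fun _ : ℕ => 𝕜) 2 n (1 : 𝕜))) :=
    (Set.countable_range _).isSeparable
  have h2 := (h1.span (R := 𝕜)).closure
  refine h2.mono fun x _ => ?_
  rw [mem_closure_iff_nhds]
  intro U hU
  obtain ⟨U', hU', hUo, hx⟩ := mem_nhds_iff.1 hU
  obtain ⟨J, hJ⟩ := exists_trunc hUo hx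
  refine ⟨_, hU' hJ, ?_⟩
  refine Submodule.sum_mem _ fun m _ => ?_
  have : lp.single (E := fun _ : ℕ => 𝕜) 2 m (x m) =
      x m • lp.single (E := fun _ : ℕ => 𝕜) 2 m (1 : 𝕜) := by
    rw [← lp.single_smul]
    simp
  rw [this]
  exact Submodule.smul_mem _ _ (Submodule.subset_span ⟨m, rfl⟩)

/-- `ℓ²(ℕ)` as a space -/
def ellSpace (𝕜 : Type) [RCLike 𝕜] : Space 𝕜 :=
  haveI := separable (𝕜 := 𝕜)
  haveI : SecondCountableTopology (ell 𝕜) := UniformSpace.secondCountable_of_separable _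
  { X := ell 𝕜
    infinite := not_fd }

/-- **Main theorem.** For the family of infinite sets there is an operator `T` such that `S ⊕ T` is
`F`-hypercyclic for every `F`-hypercyclic `S`, and `T` is not hereditarily `F`-hypercyclic. -/
theorem result (𝕜 : Type) [RCLike 𝕜] : IsFurstenberg infiniteSets ∧
    ∃ (X : Space 𝕜) (T : X.X →L[𝕜] X.X),
      (∀ (Y : Space 𝕜) (S : Y.X →L[𝕜] Y.X), IsHyp infiniteSets S →
        IsHyp infiniteSets (dsum S T)) ∧ ¬ IsHereditarilyHyp infiniteSets T := by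
  refine ⟨⟨fun A hA => Set.Infinite.nonempty hA, fun A hA B hAB => Set.Infinite.mono hAB hA⟩, ?_⟩
  obtain ⟨T, hT⟩ := exists_shift (𝕜 := 𝕜) wt 2 wt_bound
  refine ⟨ellSpace 𝕜, T, fun Y S hS => ?_, not_hereditary hT⟩
  haveI : Nonempty Y.X := ⟨0⟩
  haveI : Nonempty (ellSpace 𝕜).X := ⟨0⟩
  exact dsum_hyp S.continuous T.continuous hS
    (fun U V hU hV hUn hVn => shift_hits hT hU hV hUn hVn)

end

end Pool.Agent.Results.MP_1d57ab_an.DirectSum
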